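import Mathlib

/-!
Sequential heat-bath updates of the ferromagnetic Ising model on a finite graph: definitions and the
comparison function used in the proof of monotonicity in the inverse temperature.
-/

namespace Pool.Agent.Helper345_HeatBath

open Function

/-- The value `1` or `-1` of a spin. -/
def spin (b : Bool) : ℤ := if b then 1 else -1

/-- The heat-bath probability of the value `+1` at inverse temperature `β`, when the sum of the
neighbouring spins is `s`. -/
noncomputable def pPlus (β : ℝ) (s : ℤ) : ℝ :=
  Real.exp (β * s) / (Real.exp (β * s) + Real.exp (-(β * s)))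

set_option linter.unusedSectionVars false

variable {V : Type*} [Fintype V] [DecidableEq V] (G : SimpleGraph V) [DecidableRel G.Adj]

/-- The sum of the spins at the neighbours of `x`. -/
def nbrSum (σ : V → Bool) (x : V) : ℤ := ∑ y ∈ G.neighborFinset x, spin (σ y)

/-- The expectation of `F` after updates at the sites of the list, one after the other in the order
of the list, started from the configuration `σ`; an update at `c` puts the spin at `c` to `+1` with
probability `p s`, where `s` is the sum of the neighbouring spins, and to `-1` otherwise. -/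
noncomputable def expect (p : ℤ → ℝ) (F : (V → Bool) → ℝ) : List V → (V → Bool) → ℝ
  | [], σ => F σ
  | c :: xs, σ => p (nbrSum G σ c) * expect p F xs (update σ c true)
      + (1 - p (nbrSum G σ c)) * expect p F xs (update σ c false)

/-- The number of sites in the list adjacent to `y`. -/
def nf (xs : List V) (y : V) : ℕ := xs.countP fun c => decide (G.Adj y c)

/-- The derivative of the expectation in the inverse temperature. -/
noncomputable def dexp (p : ℤ → ℝ) (F : (V → Bool) → ℝ) : List V → (V → Bool) → ℝ
  | [], _ => 0
  | c :: xs, σ => 2 * (nbrSum G σ c) * p (nbrSum G σ c) * (1 - p (nbrSum G σ c)) *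
        (expect G p F xs (update σ c true) - expect G p F xs (update σ c false))
      + p (nbrSum G σ c) * dexp p F xs (update σ c true)
      + (1 - p (nbrSum G σ c)) * dexp p F xs (update σ c false)

/-- The comparison function. -/
noncomputable def zf (p : ℤ → ℝ) (φ : ℕ → ℕ → ℝ) (α : ℕ → ℕ → ℤ → ℝ) (F : (V → Bool) → ℝ) :
    List V → V → (V → Bool) → ℝ
  | [], _, _ => 0
  | c :: xs, y, σ =>
      (if G.Adj y c then
        α (nf G xs c) (G.degree c) (nbrSum G σ c) *
            (expect G p F xs (update σ c true)
              + φ (nf G xs c) (G.degree c) * zf p φ α F xs c (update σ c true))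
          + (1 - α (nf G xs c) (G.degree c) (nbrSum G σ c)) *
            (expect G p F xs (update σ c false)
              + φ (nf G xs c) (G.degree c) * zf p φ α F xs c (update σ c false))
          - expect G p F (c :: xs) σ else 0)
      + p (nbrSum G σ c) * zf p φ α F xs y (update σ c true)
      + (1 - p (nbrSum G σ c)) * zf p φ α F xs y (update σ c false)

theorem spin_mono : Monotone spin := by
  intro a b h
  cases a <;> cases b
  · exact le_rfl
  · decide
  · exact absurd h (by decide)
  · exact le_rfl

theorem nbrSum_mono {σ σ' : V → Bool} (h : σ ≤ σ') (x : V) : nbrSum G σ x ≤ nbrSum G σ' x :=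
  Finset.sum_le_sum fun y _ => spin_mono (h y)

omit [Fintype V] in
theorem update_mono' {σ σ' : V → Bool} (h : σ ≤ σ') (c : V) (b : Bool) :
    update σ c b ≤ update σ' c b := by
  intro y
  by_cases hy : y = c
  · subst hy; simp
  · simpa [hy] using h y

omit [Fintype V] in
theorem update_false_le (σ : V → Bool) (c : V) : update σ c false ≤ update σ c true := by
  intro y
  by_cases hy : y = c
  · subst hy; simp
  · simp [hy]

/-- The interpolation inequality used for every monotonicity. -/
theorem mix_le {a a' u v u' v' : ℝ} (ha : 0 ≤ a) (haa : a ≤ a') (ha' : a' ≤ 1) (hu : u ≤ u')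
    (hv : v ≤ v') (huv : v' ≤ u') : a * u + (1 - a) * v ≤ a' * u' + (1 - a') * v' := by
  nlinarith [mul_nonneg ha (sub_nonneg.2 hu), mul_nonneg (sub_nonneg.2 (haa.trans ha'))
    (sub_nonneg.2 hv), mul_nonneg (sub_nonneg.2 haa) (sub_nonneg.2 huv)]

theorem expect_mono {p : ℤ → ℝ} (hp0 : ∀ s, 0 ≤ p s) (hp1 : ∀ s, p s ≤ 1) (hpm : Monotone p)
    {F : (V → Bool) → ℝ} (hF : Monotone F) (xs : List V) : Monotone (expect G p F xs) := by
  induction xs with
  | nil => exact hF
  | cons c xs ih =>
    intro σ σ' h
    exact mix_le (hp0 _) (hpm (nbrSum_mono G h c)) (hp1 _) (ih (update_mono' h c true))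
      (ih (update_mono' h c false)) (ih (update_false_le σ' c))

section zf

variable {p : ℤ → ℝ} {φ : ℕ → ℕ → ℝ} {α : ℕ → ℕ → ℤ → ℝ} {F : (V → Bool) → ℝ}

theorem nf_cons (c : V) (xs : List V) (y : V) :
    nf G (c :: xs) y = nf G xs y + if G.Adj y c then 1 else 0 := by
  simp [nf, List.countP_cons]

theorem zf_nonneg (hp0 : ∀ s, 0 ≤ p s) (hp1 : ∀ s, p s ≤ 1) (hpm : Monotone p)
    (hφ0 : ∀ n D, 0 ≤ φ n D) (hα1 : ∀ n D s, α n D s ≤ 1) (hαp : ∀ n D s, p s ≤ α n D s)
    (hF : Monotone F) (xs : List V) : ∀ (y : V) (σ : V → Bool), 0 ≤ zf G p φ α F xs y σ := by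
  induction xs with
  | nil => intro y σ; exact le_rfl
  | cons c xs ih =>
    intro y σ
    have h1 := mul_nonneg (hp0 (nbrSum G σ c)) (ih y (update σ c true))
    have h2 := mul_nonneg (sub_nonneg.2 (hp1 (nbrSum G σ c))) (ih y (update σ c false))
    have h3 : 0 ≤ (if G.Adj y c then
        α (nf G xs c) (G.degree c) (nbrSum G σ c) *
            (expect G p F xs (update σ c true)
              + φ (nf G xs c) (G.degree c) * zf G p φ α F xs c (update σ c true))
          + (1 - α (nf G xs c) (G.degree c) (nbrSum G σ c)) *
            (expect G p F xs (update σ c false)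
              + φ (nf G xs c) (G.degree c) * zf G p φ α F xs c (update σ c false))
          - expect G p F (c :: xs) σ else 0) := by
      split_ifs
      · have hm := expect_mono G hp0 hp1 hpm hF xs (update_false_le σ c)
        set n := nf G xs c
        set D := G.degree c
        set s := nbrSum G σ c with hs
        have e1 := mul_nonneg (mul_nonneg ((hp0 s).trans (hαp n D s)) (hφ0 n D))
          (ih c (update σ c true))
        have e2 := mul_nonneg (mul_nonneg (sub_nonneg.2 (hα1 n D s)) (hφ0 n D))
          (ih c (update σ c false))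
        have e3 := mul_nonneg (sub_nonneg.2 (hαp n D s)) (sub_nonneg.2 hm)
        rw [expect]
        nlinarith [e1, e2, e3]
      · exact le_rfl
    rw [zf]
    linarith

theorem zf_mono (hp0 : ∀ s, 0 ≤ p s) (hp1 : ∀ s, p s ≤ 1) (hpm : Monotone p)
    (hφ0 : ∀ n D, 0 ≤ φ n D) (hφ1 : ∀ n D, n * φ n D ≤ 1)
    (hα1 : ∀ n D s, α n D s ≤ 1) (hαp : ∀ n D s, p s ≤ α n D s)
    (hαm : ∀ n D, Monotone (α n D))
    (hF : Monotone F) (xs : List V) :
    ∀ (y : V), Monotone fun σ => nf G xs y * expect G p F xs σ + zf G p φ α F xs y σ := by
  induction xs with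
  | nil => intro y σ σ' h; simp [nf, zf]
  | cons c xs ih =>
    intro y σ σ' h
    have key : ∀ σ : V → Bool, (nf G (c :: xs) y : ℝ) * expect G p F (c :: xs) σ
          + zf G p φ α F (c :: xs) y σ =
        (if G.Adj y c then
        α (nf G xs c) (G.degree c) (nbrSum G σ c) *
            (expect G p F xs (update σ c true)
              + φ (nf G xs c) (G.degree c) * zf G p φ α F xs c (update σ c true))
          + (1 - α (nf G xs c) (G.degree c) (nbrSum G σ c)) *
            (expect G p F xs (update σ c false)
              + φ (nf G xs c) (G.degree c) * zf G p φ α F xs c (update σ c false)) else 0)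
        + (p (nbrSum G σ c) * (nf G xs y * expect G p F xs (update σ c true)
              + zf G p φ α F xs y (update σ c true))
          + (1 - p (nbrSum G σ c)) * (nf G xs y * expect G p F xs (update σ c false)
              + zf G p φ α F xs y (update σ c false))) := by
      intro σ
      rw [nf_cons, zf]
      split_ifs
      · rw [expect]; push_cast; ring
      · rw [expect]; push_cast; ring
    have hG : ∀ τ τ' : V → Bool, τ ≤ τ' →
        expect G p F xs τ + φ (nf G xs c) (G.degree c) * zf G p φ α F xs c τ ≤
        expect G p F xs τ' + φ (nf G xs c) (G.degree c) * zf G p φ α F xs c τ' := by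
      intro τ τ' hτ
      have a1 := expect_mono G hp0 hp1 hpm hF xs hτ
      have a2 := ih c hτ
      simp only at a2
      have a3 := mul_nonneg (sub_nonneg.2 (hφ1 (nf G xs c) (G.degree c))) (sub_nonneg.2 a1)
      have a4 := mul_nonneg (hφ0 (nf G xs c) (G.degree c)) (sub_nonneg.2 a2)
      nlinarith [a3, a4]
    simp only
    rw [key σ, key σ']
    refine add_le_add ?_ ?_
    · split_ifs
      · exact mix_le ((hp0 _).trans (hαp _ _ _)) (hαm _ _ (nbrSum_mono G h c)) (hα1 _ _ _)
          (hG _ _ (update_mono' h c true)) (hG _ _ (update_mono' h c false))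
          (hG _ _ (update_false_le σ' c))
      · exact le_rfl
    · exact mix_le (hp0 _) (hpm (nbrSum_mono G h c)) (hp1 _) (ih y (update_mono' h c true))
        (ih y (update_mono' h c false)) (ih y (update_false_le σ' c))

theorem zf_eq_zero (xs : List V) (y : V) (hy : ∀ z ∈ xs, ¬ G.Adj y z) :
    ∀ σ : V → Bool, zf G p φ α F xs y σ = 0 := by
  induction xs with
  | nil => intro σ; rfl
  | cons c xs ih =>
    intro σ
    have hc : ¬ G.Adj y c := hy c (by simp)
    have ih' := ih fun z hz => hy z (by simp [hz])
    rw [zf, if_neg hc, ih', ih']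
    ring

end zf

end Pool.Agent.Helper345_HeatBath
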