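import Pool.Agent.Helper345_HeatBath.Tau

/-!
The monotonicity theorem under conditions on the order of the updates or on the inverse temperature.
-/

namespace Pool.Agent.Helper345_HeatBath

open Function Finset

set_option linter.unusedSectionVars false

variable {V : Type*} [Fintype V] [DecidableEq V] (G : SimpleGraph V) [DecidableRel G.Adj]

/-- The conditions on the order of the updates and on the inverse temperature. -/
def Good2 (β : ℝ) (xs : List V) : Prop :=
  ∀ ys c zs, xs = ys ++ c :: zs →
    (∀ z ∈ zs, ¬ G.Adj c z) ∨ 2 * nf G ys c ≤ G.degree c + 2 ∨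
      (G.degree c ≤ 6 ∧ Real.cosh (4 * β) ≤ 2) ∨ β ^ 2 * (G.degree c : ℝ) ^ 3 ≤ 6

theorem good2_take {β : ℝ} {xs : List V} (h : Good2 G β xs) (j : ℕ) :
    Good2 G β (xs.take j) := by
  intro ys c zs hx
  have hx' : xs = ys ++ c :: (zs ++ xs.drop j) := by
    conv_lhs => rw [← List.take_append_drop j xs, hx]
    simp
  rcases h ys c _ hx' with h | h
  · left; intro z hz; exact h z (by simp [hz])
  · right; exact h

theorem good2_mono {β β' : ℝ} (hβ : 0 ≤ β) (hββ : β ≤ β') {xs : List V} (h : Good2 G β' xs) :
    Good2 G β xs := by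
  intro ys c zs hx
  rcases h ys c zs hx with h | h | h | h
  · left; exact h
  · right; left; exact h
  · right; right; left
    refine ⟨h.1, le_trans ?_ h.2⟩
    rw [Real.cosh_le_cosh, abs_of_nonneg (by linarith), abs_of_nonneg (by linarith)]
    linarith
  · right; right; right
    refine le_trans ?_ h
    gcongr

theorem nf_add_le {ys zs : List V} {c : V} (h : (ys ++ c :: zs).Nodup) :
    nf G ys c + nf G zs c ≤ G.degree c := by
  have h1 : ys.Nodup := h.of_append_left
  have h2 : zs.Nodup := (List.nodup_cons.1 h.of_append_right).2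
  rw [nf_eq_card G h1, nf_eq_card G h2, ← G.card_neighborFinset_eq_degree,
    ← card_union_of_disjoint]
  · exact card_le_card (union_subset (filter_subset _ _) (filter_subset _ _))
  · rw [disjoint_left]
    intro y h3 h4
    rw [mem_filter] at h3 h4
    exact (List.nodup_append.1 h).2.2 y h3.2 y (by simp [h4.2]) rfl

/-- The weights of the sites. -/
noncomputable def wt (β : ℝ) (xs : List V) (c : V) : ℝ :=
  if 2 * nf G (xs.takeWhile fun x => decide (x ≠ c)) c ≤ G.degree c then 0
  else tau β (G.degree c) / nf G (xs.takeWhile fun x => decide (x ≠ c)) c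

theorem takeWhile_eq {ys zs : List V} {c : V} (h : (ys ++ c :: zs).Nodup) :
    ((ys ++ c :: zs).takeWhile fun x => decide (x ≠ c)) = ys := by
  rw [List.takeWhile_append_of_pos]
  · simp
  · intro a ha
    have : a ≠ c := fun e => (List.nodup_append.1 h).2.2 a ha c (by simp) e
    simpa using this

theorem dexp_nonneg2 {β : ℝ} (hβ : 0 ≤ β) {F : (V → Bool) → ℝ} (hF : Monotone F) (xs : List V)
    (hxs : xs.Nodup) (hg : Good2 G β xs) : 0 ≤ dexp G (pPlus β) F xs fun _ => true := by
  have h := sum_le_dexp2 G (φ := wt G β xs) (pPlus_kernel hβ) ?_ hF xs [] (fun _ => true)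
    (by simpa using hxs) (by simp) ?_ ?_
  · simpa using h
  · intro c
    unfold wt
    split_ifs
    · exact le_rfl
    · exact div_nonneg (tau_nonneg hβ (by omega)) (by positivity)
  · intro ys c zs hx
    rw [hx] at hxs
    unfold wt
    rw [hx, takeWhile_eq hxs]
    have hle := nf_add_le G hxs
    split_ifs with hD
    · simp
    · have hq0 : (0 : ℝ) < nf G ys c := by exact_mod_cast (by omega : 0 < nf G ys c)
      have hnq : (nf G zs c : ℝ) ≤ nf G ys c := by
        exact_mod_cast (by omega : nf G zs c ≤ nf G ys c)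
      rw [← mul_div_assoc, div_le_one hq0]
      have h1 := tau_le_one hβ (G.degree c : ℤ)
      have h2 := tau_nonneg hβ (s := (G.degree c : ℤ)) (by omega)
      have h3 : (0 : ℝ) ≤ nf G zs c := by positivity
      nlinarith
  · intro ys c zs hx m hm
    rw [List.nil_append] at hm ⊢
    rw [hx] at hxs
    rcases Nat.eq_zero_or_pos (nf G zs c) with hn | hn
    · left; exact hn
    right
    have hc := hg ys c zs hx
    have hc' : 2 * nf G ys c ≤ G.degree c + 2 ∨
        (G.degree c ≤ 6 ∧ Real.cosh (4 * β) ≤ 2) ∨ β ^ 2 * (G.degree c : ℝ) ^ 3 ≤ 6 := by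
      rcases hc with hc | hc
      · exfalso
        have : nf G zs c = 0 := by
          rw [nf, List.countP_eq_zero]
          simpa using hc
        omega
      · exact hc
    have := cond_ok hβ hn (nf_add_le G hxs) hm hc'
    unfold wt
    rw [hx, takeWhile_eq hxs]
    exact this

/-- Monotonicity in the inverse temperature. -/
theorem expect_le2 {F : (V → Bool) → ℝ} (hF : Monotone F) (xs : List V) (hxs : xs.Nodup)
    {β₂ β₁ : ℝ} (h2 : 0 ≤ β₂) (h12 : β₂ ≤ β₁) (hg : Good2 G β₁ xs) (j : ℕ) :
    expect G (pPlus β₂) F (xs.take j) (fun _ => true) ≤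
      expect G (pPlus β₁) F (xs.take j) (fun _ => true) := by
  have hmono : MonotoneOn (fun β => expect G (pPlus β) F (xs.take j) fun _ => true)
      (Set.Icc 0 β₁) := by
    refine monotoneOn_of_deriv_nonneg (convex_Icc 0 β₁) ?_ ?_ ?_
    · exact fun β _ => (hasDerivAt_expect G F (xs.take j) β _).continuousAt.continuousWithinAt
    · exact fun β _ =>
        (hasDerivAt_expect G F (xs.take j) β _).differentiableAt.differentiableWithinAt
    · intro β hβ
      rw [interior_Icc, Set.mem_Ioo] at hβ
      rw [(hasDerivAt_expect G F (xs.take j) β _).deriv]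
      exact dexp_nonneg2 G hβ.1.le hF _ (hxs.sublist (List.take_sublist j xs))
        (good2_take G (good2_mono G hβ.1.le hβ.2.le hg) j)
  exact hmono ⟨h2, h12⟩ ⟨h2.trans h12, le_rfl⟩ h12

end Pool.Agent.Helper345_HeatBath
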