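import Pool.Agent.Helper345_HeatBath.Torus

/-!
The comparison function with weights attached to the sites, and the lower bound for the derivative
in terms of the sites updated before.
-/

namespace Pool.Agent.Helper345_HeatBath

open Function Finset

set_option linter.unusedSectionVars false

variable {V : Type*} [Fintype V] [DecidableEq V] (G : SimpleGraph V) [DecidableRel G.Adj]

/-- The comparison function with weights attached to the sites. -/
noncomputable def zg (p : ℤ → ℝ) (φ : V → ℝ) (F : (V → Bool) → ℝ) :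
    List V → V → (V → Bool) → ℝ
  | [], _, _ => 0
  | c :: xs, y, σ =>
      (if G.Adj y c then
        expect G p F xs (update σ c true) + φ c * zg p φ F xs c (update σ c true)
          - expect G p F (c :: xs) σ else 0)
      + p (nbrSum G σ c) * zg p φ F xs y (update σ c true)
      + (1 - p (nbrSum G σ c)) * zg p φ F xs y (update σ c false)

variable {p : ℤ → ℝ} {φ : V → ℝ} {F : (V → Bool) → ℝ}

theorem zg_nonneg (hp : Kernel p) (hφ0 : ∀ c, 0 ≤ φ c) (hF : Monotone F) (xs : List V) :
    ∀ (y : V) (σ : V → Bool), 0 ≤ zg G p φ F xs y σ := by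
  induction xs with
  | nil => intro y σ; exact le_rfl
  | cons c xs ih =>
    intro y σ
    have h1 := mul_nonneg (hp.nonneg (nbrSum G σ c)) (ih y (update σ c true))
    have h2 := mul_nonneg (sub_nonneg.2 (hp.le_one (nbrSum G σ c))) (ih y (update σ c false))
    have h3 : 0 ≤ (if G.Adj y c then
        expect G p F xs (update σ c true) + φ c * zg G p φ F xs c (update σ c true)
          - expect G p F (c :: xs) σ else 0) := by
      split_ifs
      · have hm := expect_mono G hp.nonneg hp.le_one hp.mono hF xs (update_false_le σ c)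
        have e1 := mul_nonneg (hφ0 c) (ih c (update σ c true))
        have e3 := mul_nonneg (sub_nonneg.2 (hp.le_one (nbrSum G σ c))) (sub_nonneg.2 hm)
        rw [expect]
        nlinarith [e1, e3]
      · exact le_rfl
    rw [zg]
    linarith

theorem zg_mono (hp : Kernel p) (hφ0 : ∀ c, 0 ≤ φ c) (hF : Monotone F) (xs : List V) :
    (∀ ys c zs, xs = ys ++ c :: zs → (nf G zs c : ℝ) * φ c ≤ 1) →
    ∀ (y : V), Monotone fun σ => nf G xs y * expect G p F xs σ + zg G p φ F xs y σ := by
  induction xs with
  | nil => intro _ y σ σ' h; simp [nf, zg]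
  | cons c xs ih =>
    intro hφ y σ σ' h
    have hφc : (nf G xs c : ℝ) * φ c ≤ 1 := hφ [] c xs rfl
    have ih' := ih fun ys c' zs hx => hφ (c :: ys) c' zs (by simp [hx])
    have key : ∀ σ : V → Bool, (nf G (c :: xs) y : ℝ) * expect G p F (c :: xs) σ
          + zg G p φ F (c :: xs) y σ =
        (if G.Adj y c then
          expect G p F xs (update σ c true) + φ c * zg G p φ F xs c (update σ c true) else 0)
        + (p (nbrSum G σ c) * (nf G xs y * expect G p F xs (update σ c true)
              + zg G p φ F xs y (update σ c true))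
          + (1 - p (nbrSum G σ c)) * (nf G xs y * expect G p F xs (update σ c false)
              + zg G p φ F xs y (update σ c false))) := by
      intro σ
      rw [nf_cons, zg]
      split_ifs
      · rw [expect]; push_cast; ring
      · rw [expect]; push_cast; ring
    simp only
    rw [key σ, key σ']
    refine add_le_add ?_ ?_
    · split_ifs
      · have hτ := update_mono' h c true
        have a1 := expect_mono G hp.nonneg hp.le_one hp.mono hF xs hτ
        have a2 := ih' c hτ
        simp only at a2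
        have a3 := mul_nonneg (sub_nonneg.2 hφc) (sub_nonneg.2 a1)
        have a4 := mul_nonneg (hφ0 c) (sub_nonneg.2 a2)
        nlinarith [a3, a4]
      · exact le_rfl
    · exact mix_le (hp.nonneg _) (hp.mono (nbrSum_mono G h c)) (hp.le_one _)
        (ih' y (update_mono' h c true)) (ih' y (update_mono' h c false))
        (ih' y (update_false_le σ' c))

theorem zg_eq_zero (xs : List V) (y : V) (hy : ∀ z ∈ xs, ¬ G.Adj y z) :
    ∀ σ : V → Bool, zg G p φ F xs y σ = 0 := by
  induction xs with
  | nil => intro σ; rfl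
  | cons c xs ih =>
    intro σ
    have hc : ¬ G.Adj y c := hy c (by simp)
    have ih' := ih fun z hz => hy z (by simp [hz])
    rw [zg, if_neg hc, ih', ih']
    ring

/-- The one step inequality. -/
theorem step2 (hp : Kernel p) {n D q m : ℕ} (hq : q + n ≤ D) {f : ℝ}
    (h : n = 0 ∨ ((q : ℝ) - 2 * m) * f ≤ 2 * p (D - 2 * m) - 1)
    {fp fm zp zm : ℝ} (hf : fm ≤ fp) (hzp : 0 ≤ zp) (hz : n * fm + zm ≤ n * fp + zp)
    (hn : n = 0 → zp = 0 ∧ zm = 0) :
    ((q : ℝ) - 2 * m) * ((fp + f * zp) - (p (D - 2 * m) * fp + (1 - p (D - 2 * m)) * fm)) ≤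
      2 * (((D : ℤ) - 2 * m : ℤ) : ℝ) * p (D - 2 * m) * (1 - p (D - 2 * m)) * (fp - fm)
        + p (D - 2 * m) * zp - (1 - p (D - 2 * m)) * zm := by
  have hτ : 0 ≤ (((D : ℤ) - 2 * m : ℤ) : ℝ) * (2 * p (D - 2 * m) - 1) := by
    rcases le_total 0 ((D : ℤ) - 2 * m) with hs | hs
    · exact mul_nonneg (by exact_mod_cast hs) (hp.half_le hs)
    · have := hp.half_le (s := -((D : ℤ) - 2 * m)) (by omega)
      rw [hp.symm] at this
      have hs' : (((D : ℤ) - 2 * m : ℤ) : ℝ) ≤ 0 := by exact_mod_cast hs
      nlinarith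
  have hq' : (q : ℝ) + n ≤ D := by exact_mod_cast hq
  have hp1 := hp.le_one ((D : ℤ) - 2 * m)
  push_cast at hτ ⊢
  generalize p ((D : ℤ) - 2 * m) = a at *
  have e1 := mul_nonneg (mul_nonneg (sub_nonneg.2 hp1) (sub_nonneg.2 hf)) hτ
  have e2 := mul_nonneg (mul_nonneg (sub_nonneg.2 hp1) (sub_nonneg.2 hf)) (sub_nonneg.2 hq')
  rcases h with h | h
  · obtain ⟨rfl, rfl⟩ := hn h
    subst h
    push_cast at *
    nlinarith [e1, e2]
  · have e3 := mul_nonneg (sub_nonneg.2 hp1) (sub_nonneg.2 hz)
    have e4 := mul_nonneg (sub_nonneg.2 h) hzp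
    nlinarith [e1, e2, e3, e4]

theorem sum_done (c : V) (ds : List V) (hds : ds.Nodup) (σ : V → Bool)
    (h : ∀ y, y ∉ ds → σ y = true) :
    ∑ y ∈ ds.toFinset, (if G.Adj y c then spin (σ y) else 0) =
      nf G ds c - 2 * ((G.neighborFinset c).filter (σ · = false)).card := by
  have h1 : ∑ y ∈ ds.toFinset, (if G.Adj y c then spin (σ y) else 0) =
      ∑ y ∈ (G.neighborFinset c).filter (· ∈ ds), spin (σ y) := by
    rw [← sum_filter]
    refine sum_congr ?_ fun _ _ => rfl
    ext y
    simp [G.adj_comm y c, and_comm]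
  have h2 : ∀ y, spin (σ y) = 1 - 2 * (if σ y = false then (1 : ℤ) else 0) := by
    intro y; cases σ y <;> simp [spin]
  rw [h1, sum_congr rfl fun y _ => h2 y, sum_sub_distrib, ← mul_sum, sum_boole,
    nf_eq_card G hds, filter_filter]
  have h3 : (G.neighborFinset c).filter (fun y => y ∈ ds ∧ σ y = false) =
      (G.neighborFinset c).filter (σ · = false) := by
    refine filter_congr fun y _ => ⟨fun h' => h'.2, fun h' => ⟨?_, h'⟩⟩
    by_contra hc
    rw [h y hc] at h'
    exact absurd h' (by decide)
  rw [h3]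
  simp

/-- The lower bound for the derivative. -/
theorem sum_le_dexp2 (hp : Kernel p) (hφ0 : ∀ c, 0 ≤ φ c) (hF : Monotone F) (xs : List V) :
    ∀ (ds : List V) (σ : V → Bool), (ds ++ xs).Nodup → (∀ y, y ∉ ds → σ y = true) →
      (∀ ys c zs, xs = ys ++ c :: zs → (nf G zs c : ℝ) * φ c ≤ 1) →
      (∀ ys c zs, xs = ys ++ c :: zs → ∀ m : ℕ, m ≤ nf G (ds ++ ys) c →
        nf G zs c = 0 ∨
          ((nf G (ds ++ ys) c : ℝ) - 2 * m) * φ c ≤ 2 * p (G.degree c - 2 * m) - 1) →
      ∑ y ∈ ds.toFinset, spin (σ y) * zg G p φ F xs y σ ≤ dexp G p F xs σ := by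
  induction xs with
  | nil =>
    intro ds σ _ _ _ _
    simp [zg, dexp]
  | cons c xs ih =>
    intro ds σ hnd hσ hφ1 hst
    have hnd1 : (c :: xs).Nodup := hnd.of_append_right
    have hdisj : ∀ y ∈ c :: xs, y ∉ ds := fun y hy hyd =>
      (List.nodup_append.1 hnd).2.2 y hyd y hy rfl
    have hcd : c ∉ ds := hdisj c (by simp)
    have hnd2 : (ds ++ [c] ++ xs).Nodup := by simpa using hnd
    have hupd : ∀ b, ∀ y, y ∉ ds ++ [c] → update σ c b y = true := by
      intro b y hy
      simp only [List.mem_append, List.mem_singleton, not_or] at hy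
      rw [update_of_ne hy.2]
      exact hσ y hy.1
    have hφ2 : ∀ ys c' zs, xs = ys ++ c' :: zs → (nf G zs c' : ℝ) * φ c' ≤ 1 :=
      fun ys c' zs hx => hφ1 (c :: ys) c' zs (by simp [hx])
    have hst2 : ∀ ys c' zs, xs = ys ++ c' :: zs → ∀ m : ℕ, m ≤ nf G (ds ++ [c] ++ ys) c' →
        nf G zs c' = 0 ∨ ((nf G (ds ++ [c] ++ ys) c' : ℝ) - 2 * m) * φ c' ≤
          2 * p (G.degree c' - 2 * m) - 1 := by
      intro ys c' zs hx m hm
      have e : ds ++ [c] ++ ys = ds ++ (c :: ys) := by simp
      rw [e] at hm ⊢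
      exact hst (c :: ys) c' zs (by simp [hx]) m hm
    have ihp := ih (ds ++ [c]) (update σ c true) hnd2 (hupd true) hφ2 hst2
    have ihm := ih (ds ++ [c]) (update σ c false) hnd2 (hupd false) hφ2 hst2
    have hfil : (ds ++ [c]).toFinset = insert c ds.toFinset := by
      ext y; simp
    have hcn : c ∉ ds.toFinset := by simpa using hcd
    rw [hfil, sum_insert hcn] at ihp ihm
    rw [update_self] at ihp ihm
    have hne : ∀ b, ∑ y ∈ ds.toFinset,
        (spin (update σ c b y) : ℝ) * zg G p φ F xs y (update σ c b) =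
        ∑ y ∈ ds.toFinset, (spin (σ y) : ℝ) * zg G p φ F xs y (update σ c b) := by
      intro b
      refine sum_congr rfl fun y hy => ?_
      have hyc : y ≠ c := fun e => hcn (e ▸ hy)
      rw [update_of_ne hyc]
    rw [hne] at ihp ihm
    set m := ((G.neighborFinset c).filter (σ · = false)).card with hm
    have hSm : nbrSum G σ c = G.degree c - 2 * m := nbrSum_eq G c σ
    have hm1 : m ≤ nf G ds c := card_le_countP G ds c σ hσ
    have hnds : ds.Nodup := hnd.of_append_left
    have hm2 : nf G ds c + nf G xs c ≤ G.degree c := by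
      rw [nf_eq_card G hnds, nf_eq_card G (List.nodup_cons.1 hnd1).2,
        ← G.card_neighborFinset_eq_degree, ← card_union_of_disjoint]
      · exact card_le_card (union_subset (filter_subset _ _) (filter_subset _ _))
      · rw [disjoint_left]
        intro y h1 h2
        rw [mem_filter] at h1 h2
        exact hdisj y (by simp [h2.2]) h1.2
    have hcond := hst [] c xs rfl m (by rw [List.append_nil]; exact hm1)
    rw [List.append_nil] at hcond
    have hmono := zg_mono G hp hφ0 hF xs hφ2 c (update_false_le σ c)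
    simp only at hmono
    have hstep := step2 hp (n := nf G xs c) (D := G.degree c) (q := nf G ds c) (m := m) hm2 hcond
      (fp := expect G p F xs (update σ c true)) (fm := expect G p F xs (update σ c false))
      (zp := zg G p φ F xs c (update σ c true)) (zm := zg G p φ F xs c (update σ c false))
      (expect_mono G hp.nonneg hp.le_one hp.mono hF xs (update_false_le σ c))
      (zg_nonneg G hp hφ0 hF xs c _) hmono
      (fun h0 => by
        have hz : ∀ z ∈ xs, ¬ G.Adj c z := by
          intro z hz
          rw [nf, List.countP_eq_zero] at h0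
          simpa using h0 z hz
        exact ⟨zg_eq_zero G xs c hz _, zg_eq_zero G xs c hz _⟩)
    rw [← hSm] at hstep
    have hsum := sum_done G c ds hnds σ hσ
    rw [← hm] at hsum
    have hexp : ∑ y ∈ ds.toFinset, (spin (σ y) : ℝ) * zg G p φ F (c :: xs) y σ =
        ((nf G ds c : ℝ) - 2 * m) *
          (expect G p F xs (update σ c true) + φ c * zg G p φ F xs c (update σ c true)
          - expect G p F (c :: xs) σ)
        + p (nbrSum G σ c) * ∑ y ∈ ds.toFinset,
            (spin (σ y) : ℝ) * zg G p φ F xs y (update σ c true)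
        + (1 - p (nbrSum G σ c)) * ∑ y ∈ ds.toFinset,
            (spin (σ y) : ℝ) * zg G p φ F xs y (update σ c false) := by
      have hsum' : ((nf G ds c : ℝ) - 2 * m) =
          ∑ y ∈ ds.toFinset, (if G.Adj y c then (spin (σ y) : ℝ) else 0) := by
        have := congrArg (fun z : ℤ => (z : ℝ)) hsum
        push_cast at this
        rw [← this]
      rw [hsum', sum_mul, mul_sum, mul_sum, ← sum_add_distrib, ← sum_add_distrib]
      refine sum_congr rfl fun y _ => ?_
      rw [zg]
      split_ifs
      · ring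
      · ring
    rw [hexp, dexp]
    have e1 := mul_le_mul_of_nonneg_left ihp (hp.nonneg (nbrSum G σ c))
    have e2 := mul_le_mul_of_nonneg_left ihm (sub_nonneg.2 (hp.le_one (nbrSum G σ c)))
    have s1 : ((spin true : ℤ) : ℝ) = 1 := by simp [spin]
    have s2 : ((spin false : ℤ) : ℝ) = -1 := by simp [spin]
    rw [s1] at e1
    rw [s2] at e2
    rw [expect]
    linarith [e1, e2, hstep]

end Pool.Agent.Helper345_HeatBath
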