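import Pool.Agent.Helper345_HeatBath.Step

/-!
The lower bound for the derivative, and monotonicity in the inverse temperature.
-/

namespace Pool.Agent.Helper345_HeatBath

open Function Finset

set_option linter.unusedSectionVars false

variable {V : Type*} [Fintype V] [DecidableEq V] (G : SimpleGraph V) [DecidableRel G.Adj]

theorem nf_eq_card {xs : List V} (hxs : xs.Nodup) (c : V) :
    nf G xs c = ((G.neighborFinset c).filter (· ∈ xs)).card := by
  rw [nf, List.countP_eq_length_filter, ← List.toFinset_card_of_nodup (hxs.filter _)]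
  congr 1
  ext y
  simp [and_comm]

theorem card_le_countP (ds : List V) (c : V) (σ : V → Bool) (h : ∀ y, y ∉ ds → σ y = true) :
    ((G.neighborFinset c).filter (σ · = false)).card ≤ nf G ds c := by
  rw [nf, List.countP_eq_length_filter]
  refine le_trans (card_le_card ?_) (List.toFinset_card_le _)
  intro y hy
  simp only [mem_filter, SimpleGraph.mem_neighborFinset] at hy
  simp only [List.mem_toFinset, List.mem_filter, decide_eq_true_eq]
  refine ⟨?_, hy.1⟩
  by_contra hc
  simp [h y hc] at hy

theorem nbrSum_eq (c : V) (σ : V → Bool) :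
    nbrSum G σ c = G.degree c - 2 * ((G.neighborFinset c).filter (σ · = false)).card := by
  have h : ∀ y, spin (σ y) = 1 - 2 * (if σ y = false then (1 : ℤ) else 0) := by
    intro y; cases σ y <;> simp [spin]
  rw [nbrSum, sum_congr rfl fun y _ => h y, sum_sub_distrib, ← mul_sum, sum_boole]
  simp

theorem sum_not_mem (c : V) (xs : List V) (hxs : (c :: xs).Nodup) (σ : V → Bool)
    (h : ∀ y ∈ xs, σ y = true) :
    ∑ y ∈ univ.filter (fun y => y ∉ c :: xs), (if G.Adj y c then spin (σ y) else 0) =
      nbrSum G σ c - nf G xs c := by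
  have h1 : nbrSum G σ c = ∑ y ∈ (G.neighborFinset c).filter (· ∈ xs), spin (σ y)
      + ∑ y ∈ (G.neighborFinset c).filter (¬ · ∈ xs), spin (σ y) := by
    rw [nbrSum, sum_filter_add_sum_filter_not]
  have h2 : ∑ y ∈ (G.neighborFinset c).filter (· ∈ xs), spin (σ y) = nf G xs c := by
    rw [nf_eq_card G (List.nodup_cons.1 hxs).2, card_eq_sum_ones]
    push_cast
    refine sum_congr rfl fun y hy => ?_
    rw [h y (mem_filter.1 hy).2]
    rfl
  rw [h1, h2, ← sum_filter, add_sub_cancel_left]
  refine sum_congr ?_ fun _ _ => rfl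
  ext y
  simp only [mem_filter, mem_univ, true_and, List.mem_cons, not_or,
    SimpleGraph.mem_neighborFinset, G.adj_comm y c]
  constructor
  · rintro ⟨⟨_, b⟩, d⟩; exact ⟨d, b⟩
  · rintro ⟨d, b⟩; exact ⟨⟨fun e => G.loopless.irrefl c (e ▸ d), b⟩, d⟩

variable {p : ℤ → ℝ} {φ : ℕ → ℕ → ℝ} {α : ℕ → ℕ → ℤ → ℝ} {F : (V → Bool) → ℝ}

/-- The lower bound for the derivative. -/
theorem sum_le_dexp (hp : Kernel p)
    (hφ0 : ∀ n D, 0 ≤ φ n D) (hφ1 : ∀ n D, n * φ n D ≤ 1)
    (hα1 : ∀ n D s, α n D s ≤ 1) (hαp : ∀ n D s, p s ≤ α n D s)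
    (hαm : ∀ n D, Monotone (α n D)) (hF : Monotone F) (xs : List V) :
    ∀ (ds : List V) (σ : V → Bool), (ds ++ xs).Nodup → (∀ y, y ∉ ds → σ y = true) →
      (∀ ys c zs, xs = ys ++ c :: zs → ∀ m : ℕ, m ≤ nf G (ds ++ ys) c →
        m + nf G zs c ≤ G.degree c → StepOK p φ α (nf G zs c) (G.degree c) (G.degree c - 2 * m)) →
      ∑ y ∈ univ.filter (fun y => y ∉ xs), spin (σ y) * zf G p φ α F xs y σ ≤
        dexp G p F xs σ := by
  induction xs with
  | nil =>
    intro ds σ _ _ _
    simp [zf, dexp]
  | cons c xs ih =>
    intro ds σ hnd hσ hst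
    have hnd1 : (c :: xs).Nodup := hnd.of_append_right
    have hcx : c ∉ xs := (List.nodup_cons.1 hnd1).1
    have hdisj : ∀ y ∈ c :: xs, y ∉ ds := fun y hy hyd =>
      (List.nodup_append.1 hnd).2.2 y hyd y hy rfl
    -- the two induction hypotheses
    have hnd2 : (ds ++ [c] ++ xs).Nodup := by simpa using hnd
    have hupd : ∀ b, ∀ y, y ∉ ds ++ [c] → update σ c b y = true := by
      intro b y hy
      simp only [List.mem_append, List.mem_singleton, not_or] at hy
      rw [update_of_ne hy.2]
      exact hσ y hy.1
    have hst2 : ∀ ys c' zs, xs = ys ++ c' :: zs → ∀ m : ℕ, m ≤ nf G (ds ++ [c] ++ ys) c' →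
        m + nf G zs c' ≤ G.degree c' →
        StepOK p φ α (nf G zs c') (G.degree c') (G.degree c' - 2 * m) := by
      intro ys c' zs hx m hm hm'
      refine hst (c :: ys) c' zs (by simp [hx]) m ?_ hm'
      simpa using hm
    have ihp := ih (ds ++ [c]) (update σ c true) hnd2 (hupd true) hst2
    have ihm := ih (ds ++ [c]) (update σ c false) hnd2 (hupd false) hst2
    have hfil : (univ.filter fun y => y ∉ xs) =
        insert c (univ.filter fun y => y ∉ c :: xs) := by
      ext y
      simp only [mem_filter, mem_univ, true_and, mem_insert, List.mem_cons, not_or]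
      by_cases hy : y = c
      · subst hy; simp [hcx]
      · simp [hy]
    have hcn : c ∉ univ.filter fun y => y ∉ c :: xs := by simp
    rw [hfil, sum_insert hcn] at ihp ihm
    rw [update_self] at ihp ihm
    have hne : ∀ b, ∑ y ∈ univ.filter (fun y => y ∉ c :: xs),
        (spin (update σ c b y) : ℝ) * zf G p φ α F xs y (update σ c b) =
        ∑ y ∈ univ.filter (fun y => y ∉ c :: xs),
        (spin (σ y) : ℝ) * zf G p φ α F xs y (update σ c b) := by
      intro b
      refine sum_congr rfl fun y hy => ?_
      simp only [mem_filter, mem_univ, true_and, List.mem_cons, not_or] at hy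
      rw [update_of_ne hy.1]
    rw [hne] at ihp ihm
    -- the step
    set m := ((G.neighborFinset c).filter (σ · = false)).card with hm
    have hSm : nbrSum G σ c = G.degree c - 2 * m := nbrSum_eq G c σ
    have hm1 : m ≤ nf G (ds ++ []) c := by
      rw [List.append_nil]; exact card_le_countP G ds c σ hσ
    have hm2 : m + nf G xs c ≤ G.degree c := by
      rw [hm, nf_eq_card G (List.nodup_cons.1 hnd1).2, ← G.card_neighborFinset_eq_degree,
        ← card_union_of_disjoint]
      · exact card_le_card (union_subset (filter_subset _ _) (filter_subset _ _))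
      · rw [disjoint_left]
        intro y h1 h2
        rw [mem_filter] at h1 h2
        rw [hσ y (hdisj y (by simp [h2.2]))] at h1
        simp at h1
    have hstep := hst [] c xs rfl m hm1 hm2
    rw [← hSm] at hstep
    have hmono := zf_mono G hp.nonneg hp.le_one hp.mono hφ0 hφ1 hα1 hαp hαm hF xs c
      (update_false_le σ c)
    simp only at hmono
    have hstep' := hstep (expect G p F xs (update σ c true)) (expect G p F xs (update σ c false))
      (zf G p φ α F xs c (update σ c true)) (zf G p φ α F xs c (update σ c false))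
      (expect_mono G hp.nonneg hp.le_one hp.mono hF xs (update_false_le σ c))
      (zf_nonneg G hp.nonneg hp.le_one hp.mono hφ0 hα1 hαp hF xs c _)
      (zf_nonneg G hp.nonneg hp.le_one hp.mono hφ0 hα1 hαp hF xs c _)
      hmono
      (fun h0 => by
        have hz : ∀ z ∈ xs, ¬ G.Adj c z := by
          intro z hz
          rw [nf, List.countP_eq_zero] at h0
          simpa using h0 z hz
        exact ⟨zf_eq_zero G xs c hz _, zf_eq_zero G xs c hz _⟩)
    have hsum := sum_not_mem G c xs hnd1 σ fun y hy => hσ y (hdisj y (by simp [hy]))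
    -- the expansion of the left side
    have hexp : ∑ y ∈ univ.filter (fun y => y ∉ c :: xs),
          (spin (σ y) : ℝ) * zf G p φ α F (c :: xs) y σ =
        ((nbrSum G σ c : ℤ) - (nf G xs c : ℝ)) *
          (α (nf G xs c) (G.degree c) (nbrSum G σ c) *
            (expect G p F xs (update σ c true)
              + φ (nf G xs c) (G.degree c) * zf G p φ α F xs c (update σ c true))
          + (1 - α (nf G xs c) (G.degree c) (nbrSum G σ c)) *
            (expect G p F xs (update σ c false)
              + φ (nf G xs c) (G.degree c) * zf G p φ α F xs c (update σ c false))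
          - expect G p F (c :: xs) σ)
        + p (nbrSum G σ c) * ∑ y ∈ univ.filter (fun y => y ∉ c :: xs),
            (spin (σ y) : ℝ) * zf G p φ α F xs y (update σ c true)
        + (1 - p (nbrSum G σ c)) * ∑ y ∈ univ.filter (fun y => y ∉ c :: xs),
            (spin (σ y) : ℝ) * zf G p φ α F xs y (update σ c false) := by
      have hsum' : ((nbrSum G σ c : ℤ) - (nf G xs c : ℝ)) =
          ∑ y ∈ univ.filter (fun y => y ∉ c :: xs),
            (if G.Adj y c then (spin (σ y) : ℝ) else 0) := by
        have := congrArg (fun z : ℤ => (z : ℝ)) hsum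
        push_cast at this
        rw [← this]
      rw [hsum', sum_mul, mul_sum, mul_sum, ← sum_add_distrib, ← sum_add_distrib]
      refine sum_congr rfl fun y _ => ?_
      rw [zf]
      split_ifs
      · ring
      · ring
    rw [hexp, dexp]
    have e1 := mul_le_mul_of_nonneg_left ihp (hp.nonneg (nbrSum G σ c))
    have e2 := mul_le_mul_of_nonneg_left ihm (sub_nonneg.2 (hp.le_one (nbrSum G σ c)))
    have s1 : ((spin true : ℤ) : ℝ) = 1 := by simp [spin]
    have s2 : ((spin false : ℤ) : ℝ) = -1 := by simp [spin]
    rw [s1] at e1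
    rw [s2] at e2
    rw [expect]
    linarith [e1, e2, hstep']

/-- The condition on the order of the updates. -/
def Good (xs : List V) : Prop :=
  ∀ ys c zs, xs = ys ++ c :: zs →
    (∀ z ∈ zs, ¬ G.Adj c z) ∨ 2 * nf G ys c ≤ G.degree c ∨ G.degree c ≤ 4

theorem dexp_nonneg (hp : Kernel p) (hF : Monotone F) (xs : List V) (hxs : xs.Nodup)
    (hg : Good G xs) : 0 ≤ dexp G p F xs fun _ => true := by
  refine le_trans ?_ (sum_le_dexp G hp (phi_nonneg hp) (mul_phi_le hp) (alpha_le_one hp)
    (le_alpha hp) (alpha_mono hp) hF xs [] (fun _ => true) (by simpa using hxs) (by simp) ?_)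
  · refine sum_nonneg fun y _ => ?_
    have h := zf_nonneg G hp.nonneg hp.le_one hp.mono (phi_nonneg hp) (alpha_le_one hp)
      (le_alpha hp) hF xs y fun _ => true
    simpa [spin] using h
  · intro ys c zs hx m hm hm'
    refine step_ok hp hm' ?_
    rw [List.nil_append] at hm
    rcases hg ys c zs hx with h | h | h
    · left
      rw [nf, List.countP_eq_zero]
      simpa using h
    · right; left; omega
    · right; right; exact h

/-! The heat-bath kernel. -/

theorem pPlus_kernel {β : ℝ} (hβ : 0 ≤ β) : Kernel (pPlus β) where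
  nonneg s := by unfold pPlus; positivity
  le_one s := by
    unfold pPlus
    rw [div_le_one (by positivity)]
    linarith [Real.exp_pos (-(β * s))]
  mono := by
    intro s s' h
    unfold pPlus
    rw [div_le_div_iff₀ (by positivity) (by positivity)]
    have hs : β * s ≤ β * s' := mul_le_mul_of_nonneg_left (by exact_mod_cast h) hβ
    have h1 : Real.exp (β * s) * Real.exp (-(β * s')) ≤
        Real.exp (β * s') * Real.exp (-(β * s)) := by
      rw [← Real.exp_add, ← Real.exp_add]
      exact Real.exp_le_exp.2 (by linarith)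
    nlinarith [h1]
  symm s := by
    unfold pPlus
    have h1 := Real.exp_pos (β * s)
    have h2 := Real.exp_pos (-(β * s))
    push_cast
    rw [mul_neg, neg_neg]
    field_simp
    ring

theorem hasDerivAt_pPlus (β : ℝ) (s : ℤ) :
    HasDerivAt (fun β => pPlus β s) (2 * s * pPlus β s * (1 - pPlus β s)) β := by
  have h1 : HasDerivAt (fun β : ℝ => Real.exp (β * s)) (Real.exp (β * s) * s) β := by
    simpa using ((hasDerivAt_id β).mul_const (s : ℝ)).exp
  have h2 : HasDerivAt (fun β : ℝ => Real.exp (-(β * s))) (Real.exp (-(β * s)) * (-s)) β := by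
    simpa using ((hasDerivAt_id β).mul_const (s : ℝ)).neg.exp
  have h3 : Real.exp (β * s) + Real.exp (-(β * s)) ≠ 0 := by positivity
  have h := h1.div (h1.add h2) h3
  refine h.congr_deriv ?_
  unfold pPlus
  simp only [Pi.add_apply]
  field_simp
  ring

theorem hasDerivAt_expect (F : (V → Bool) → ℝ) (xs : List V) (β : ℝ) :
    ∀ σ : V → Bool, HasDerivAt (fun β => expect G (pPlus β) F xs σ)
      (dexp G (pPlus β) F xs σ) β := by
  induction xs with
  | nil => intro σ; exact hasDerivAt_const β (F σ)
  | cons c xs ih =>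
    intro σ
    have hp := hasDerivAt_pPlus β (nbrSum G σ c)
    have h := (hp.mul (ih (update σ c true))).add
      (((hasDerivAt_const β (1 : ℝ)).sub hp).mul (ih (update σ c false)))
    refine h.congr_deriv ?_
    rw [dexp]
    simp only [Pi.sub_apply]
    ring

theorem good_take {xs : List V} (h : Good G xs) (j : ℕ) : Good G (xs.take j) := by
  intro ys c zs hx
  have hx' : xs = ys ++ c :: (zs ++ xs.drop j) := by
    conv_lhs => rw [← List.take_append_drop j xs, hx]
    simp
  rcases h ys c _ hx' with h | h | h
  · left; intro z hz; exact h z (by simp [hz])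
  · right; left; exact h
  · right; right; exact h

/-- Monotonicity in the inverse temperature. -/
theorem expect_le (hF : Monotone F) (xs : List V) (hxs : xs.Nodup) (hg : Good G xs)
    {β₂ β₁ : ℝ} (h2 : 0 ≤ β₂) (h12 : β₂ ≤ β₁) (j : ℕ) :
    expect G (pPlus β₂) F (xs.take j) (fun _ => true) ≤
      expect G (pPlus β₁) F (xs.take j) (fun _ => true) := by
  have hmono : MonotoneOn (fun β => expect G (pPlus β) F (xs.take j) fun _ => true)
      (Set.Ici 0) := by
    refine monotoneOn_of_deriv_nonneg (convex_Ici 0) ?_ ?_ ?_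
    · exact fun β _ => (hasDerivAt_expect G F (xs.take j) β _).continuousAt.continuousWithinAt
    · exact fun β _ => (hasDerivAt_expect G F (xs.take j) β _).differentiableAt.differentiableWithinAt
    · intro β hβ
      rw [interior_Ici, Set.mem_Ioi] at hβ
      rw [(hasDerivAt_expect G F (xs.take j) β _).deriv]
      exact dexp_nonneg G (pPlus_kernel hβ.le) hF _ (hxs.sublist (List.take_sublist j xs))
        (good_take G hg j)
  exact hmono h2 (h2.trans h12) h12

end Pool.Agent.Helper345_HeatBath
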