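import Pool.Agent.Helper345_HeatBath.Basic

/-!
The one step inequality and the lower bound for the derivative.
-/

namespace Pool.Agent.Helper345_HeatBath

open Function

/-- The inequality needed at one step, for `n` later neighbours, degree `D` and neighbour sum
`s`. -/
def StepOK (p : ℤ → ℝ) (φ : ℕ → ℕ → ℝ) (α : ℕ → ℕ → ℤ → ℝ) (n D : ℕ) (s : ℤ) : Prop :=
  ∀ fp fm zp zm : ℝ, fm ≤ fp → 0 ≤ zp → 0 ≤ zm → n * fm + zm ≤ n * fp + zp →
    (n = 0 → zp = 0 ∧ zm = 0) →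
    (s - n) * (α n D s * (fp + φ n D * zp) + (1 - α n D s) * (fm + φ n D * zm)
        - (p s * fp + (1 - p s) * fm)) ≤
      2 * s * p s * (1 - p s) * (fp - fm) + p s * zp - (1 - p s) * zm

/-- The properties of the heat-bath probability that are used. -/
structure Kernel (p : ℤ → ℝ) : Prop where
  nonneg : ∀ s, 0 ≤ p s
  le_one : ∀ s, p s ≤ 1
  mono : Monotone p
  symm : ∀ s, p (-s) = 1 - p s

/-- The weight `φ`. -/
noncomputable def phi (p : ℤ → ℝ) (n D : ℕ) : ℝ :=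
  if n = 1 ∧ D = 4 then (2 * p 2 - 1) / 3 else if n = 1 ∧ D = 3 then (2 * p 1 - 1) / 2 else 0

/-- The weight `α`. -/
noncomputable def alpha (p : ℤ → ℝ) (n D : ℕ) (s : ℤ) : ℝ :=
  if n = 1 ∧ D = 4 ∧ s ≤ -2 then
    (1 - (2 * p 2 - 1)) * (3 + (2 * p 2 - 1)) / (3 - (2 * p 2 - 1))
  else if n = 1 ∧ D = 3 ∧ s ≤ -1 then
    (1 - (2 * p 1 - 1)) * (4 + (2 * p 1 - 1)) / (2 * (2 - (2 * p 1 - 1)))
  else 1

section params

variable {p : ℤ → ℝ}

theorem Kernel.half_le (hp : Kernel p) {s : ℤ} (hs : 0 ≤ s) : 0 ≤ 2 * p s - 1 := by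
  have h := hp.mono (show -s ≤ s by omega)
  rw [hp.symm] at h
  linarith

theorem phi_nonneg (hp : Kernel p) (n D : ℕ) : 0 ≤ phi p n D := by
  have h1 := hp.half_le (s := 1) (by norm_num)
  have h2 := hp.half_le (s := 2) (by norm_num)
  unfold phi
  split_ifs
  · linarith
  · linarith
  · exact le_rfl

theorem mul_phi_le (hp : Kernel p) (n D : ℕ) : n * phi p n D ≤ 1 := by
  have h1 := hp.le_one 1
  have h2 := hp.le_one 2
  unfold phi
  split_ifs with h h'
  · rw [h.1]; push_cast; linarith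
  · rw [h'.1]; push_cast; linarith
  · simp

theorem a4_le {t : ℝ} (h0 : 0 ≤ t) (h1 : t ≤ 1) : (1 - t) * (3 + t) / (3 - t) ≤ 1 := by
  rw [div_le_one (by linarith)]; nlinarith

theorem a3_le {t : ℝ} (h0 : 0 ≤ t) (h1 : t ≤ 1) : (1 - t) * (4 + t) / (2 * (2 - t)) ≤ 1 := by
  rw [div_le_one (by linarith)]; nlinarith

theorem le_a4 {t : ℝ} (h0 : 0 ≤ t) (h1 : t ≤ 1) :
    (1 - t) / 2 ≤ (1 - t) * (3 + t) / (3 - t) := by
  rw [div_le_div_iff₀ (by norm_num) (by linarith)]; nlinarith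

theorem le_a3 {t : ℝ} (h0 : 0 ≤ t) (h1 : t ≤ 1) :
    (1 - t) / 2 ≤ (1 - t) * (4 + t) / (2 * (2 - t)) := by
  rw [div_le_div_iff₀ (by norm_num) (by linarith)]; nlinarith

theorem alpha_le_one (hp : Kernel p) (n D : ℕ) (s : ℤ) : alpha p n D s ≤ 1 := by
  unfold alpha
  split_ifs
  · exact a4_le (hp.half_le (by norm_num)) (by linarith [hp.le_one 2])
  · exact a3_le (hp.half_le (by norm_num)) (by linarith [hp.le_one 1])
  · exact le_rfl

theorem le_alpha (hp : Kernel p) (n D : ℕ) (s : ℤ) : p s ≤ alpha p n D s := by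
  unfold alpha
  split_ifs with h h'
  · have e := le_a4 (hp.half_le (s := 2) (by norm_num)) (by linarith [hp.le_one 2])
    have e2 := hp.mono h.2.2
    rw [hp.symm 2] at e2
    linarith
  · have e := le_a3 (hp.half_le (s := 1) (by norm_num)) (by linarith [hp.le_one 1])
    have e2 := hp.mono h'.2.2
    rw [hp.symm 1] at e2
    linarith
  · exact hp.le_one s

theorem alpha_mono (hp : Kernel p) (n D : ℕ) : Monotone (alpha p n D) := by
  intro s s' h
  by_cases h4 : n = 1 ∧ D = 4 ∧ s' ≤ -2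
  · have h4' : n = 1 ∧ D = 4 ∧ s ≤ -2 := ⟨h4.1, h4.2.1, h.trans h4.2.2⟩
    simp [alpha, h4, h4']
  by_cases h3 : n = 1 ∧ D = 3 ∧ s' ≤ -1
  · have h3' : n = 1 ∧ D = 3 ∧ s ≤ -1 := ⟨h3.1, h3.2.1, h.trans h3.2.2⟩
    simp [alpha, h3, h3']
  have : alpha p n D s' = 1 := by rw [alpha, if_neg h4, if_neg h3]
  rw [this]
  exact alpha_le_one hp n D s

/-- The step inequality when the weights are trivial. -/
theorem step_triv (hp : Kernel p) {n D : ℕ} {s : ℤ} (hφ : phi p n D = 0) (hα : alpha p n D s = 1)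
    (h : n = 0 ∨ 0 ≤ s) : StepOK p (phi p) (alpha p) n D s := by
  intro fp fm zp zm hf hzp hzm hz hn
  rw [hφ, hα]
  have hτ : 0 ≤ s * (2 * p s - 1) := by
    rcases le_total 0 s with hs | hs
    · exact mul_nonneg (by exact_mod_cast hs) (hp.half_le hs)
    · have := hp.half_le (s := -s) (by omega)
      rw [hp.symm] at this
      have hs' : (s : ℝ) ≤ 0 := by exact_mod_cast hs
      nlinarith
  have e1 := mul_nonneg (mul_nonneg hτ (sub_nonneg.2 (hp.le_one s))) (sub_nonneg.2 hf)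
  rcases h with h | h
  · obtain ⟨rfl, rfl⟩ := hn h
    rw [h]
    push_cast
    nlinarith [e1]
  · have e2 := mul_nonneg (sub_nonneg.2 (hp.le_one s)) (sub_nonneg.2 hz)
    have e3 := mul_nonneg (hp.half_le h) hzp
    nlinarith [e1, e2, e3]

/-- The step inequality with one later neighbour and a nonnegative neighbour sum. -/
theorem step_pos (hp : Kernel p) {D : ℕ} {s : ℤ} (hα : alpha p 1 D s = 1) (hs : 0 ≤ s)
    (h : (s - 1) * phi p 1 D ≤ 2 * p s - 1) : StepOK p (phi p) (alpha p) 1 D s := by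
  intro fp fm zp zm hf hzp hzm hz hn
  rw [hα]
  have hs' : (0 : ℝ) ≤ s := by exact_mod_cast hs
  have e1 := mul_nonneg (mul_nonneg (mul_nonneg hs' (hp.half_le hs))
    (sub_nonneg.2 (hp.le_one s))) (sub_nonneg.2 hf)
  have e2 := mul_nonneg (sub_nonneg.2 (hp.le_one s)) (sub_nonneg.2 hz)
  have e3 := mul_nonneg (sub_nonneg.2 h) hzp
  push_cast at *
  nlinarith [e1, e2, e3]

theorem step_neg4 (hp : Kernel p) : StepOK p (phi p) (alpha p) 1 4 (-2) := by
  intro fp fm zp zm hf hzp hzm hz hn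
  have hφ : phi p 1 4 = (2 * p 2 - 1) / 3 := by simp [phi]
  have hα : alpha p 1 4 (-2) =
      (1 - (2 * p 2 - 1)) * (3 + (2 * p 2 - 1)) / (3 - (2 * p 2 - 1)) := by simp [alpha]
  rw [hφ]
  generalize ha : alpha p 1 4 (-2) = a at *
  rw [hp.symm 2]
  have h0 := hp.half_le (s := 2) (by norm_num)
  have h1 := hp.le_one 2
  have ha0 : 0 ≤ a := by rw [← ha]; exact (hp.nonneg _).trans (le_alpha hp _ _ _)
  generalize ht : 2 * p 2 - 1 = t at *
  have hp2 : p 2 = (1 + t) / 2 := by linarith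
  rw [hp2] at h1 ⊢
  have ht1 : t ≤ 1 := by linarith
  have hid : (3 - t) * a = (1 - t) * (3 + t) := by
    rw [hα]; field_simp [show (3 - t) ≠ 0 by linarith]
  have e1 := mul_nonneg (show 0 ≤ (1 - t) / 2 + t * a by nlinarith) (sub_nonneg.2 hz)
  push_cast at *
  have e2 : ((3 - t) * a - (1 - t) * (3 + t)) * (fp - fm) = 0 := by rw [hid]; ring
  nlinarith [e1, e2]

theorem step_neg3 (hp : Kernel p) : StepOK p (phi p) (alpha p) 1 3 (-1) := by
  intro fp fm zp zm hf hzp hzm hz hn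
  have hφ : phi p 1 3 = (2 * p 1 - 1) / 2 := by simp [phi]
  have hα : alpha p 1 3 (-1) =
      (1 - (2 * p 1 - 1)) * (4 + (2 * p 1 - 1)) / (2 * (2 - (2 * p 1 - 1))) := by simp [alpha]
  rw [hφ]
  generalize ha : alpha p 1 3 (-1) = a at *
  rw [hp.symm 1]
  have h0 := hp.half_le (s := 1) (by norm_num)
  have h1 := hp.le_one 1
  have ha0 : 0 ≤ a := by rw [← ha]; exact (hp.nonneg _).trans (le_alpha hp _ _ _)
  generalize ht : 2 * p 1 - 1 = t at *
  have hp2 : p 1 = (1 + t) / 2 := by linarith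
  rw [hp2] at h1 ⊢
  have ht1 : t ≤ 1 := by linarith
  have hid : 2 * (2 - t) * a = (1 - t) * (4 + t) := by
    rw [hα]; field_simp [show (2 - t) ≠ 0 by linarith]
  have e1 := mul_nonneg (show 0 ≤ (1 - t) / 2 + t * a by nlinarith) (sub_nonneg.2 hz)
  push_cast at *
  have e2 : (2 * (2 - t) * a - (1 - t) * (4 + t)) * (fp - fm) = 0 := by rw [hid]; ring
  nlinarith [e1, e2]

theorem step_ok (hp : Kernel p) {n D m : ℕ} (hm : m + n ≤ D)
    (h : n = 0 ∨ 2 * m ≤ D ∨ D ≤ 4) : StepOK p (phi p) (alpha p) n D (D - 2 * m) := by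
  by_cases h4 : n = 1 ∧ D = 4
  · obtain ⟨rfl, rfl⟩ := h4
    have hm' : m ≤ 3 := by omega
    have hφ : phi p 1 4 = (2 * p 2 - 1) / 3 := by simp [phi]
    have h2 := hp.half_le (s := 2) (by norm_num)
    interval_cases m
    · refine step_pos hp (by simp [alpha]) (by norm_num) ?_
      have := hp.mono (show (2 : ℤ) ≤ 4 by norm_num)
      rw [hφ]; norm_num; linarith
    · refine step_pos hp (by simp [alpha]) (by norm_num) ?_
      rw [hφ]; norm_num; linarith
    · refine step_pos hp (by simp [alpha]) (by norm_num) ?_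
      have := hp.half_le (s := 0) le_rfl
      rw [hφ]; norm_num; linarith
    · exact step_neg4 hp
  by_cases h3 : n = 1 ∧ D = 3
  · obtain ⟨rfl, rfl⟩ := h3
    have hm' : m ≤ 2 := by omega
    have hφ : phi p 1 3 = (2 * p 1 - 1) / 2 := by simp [phi]
    have h2 := hp.half_le (s := 1) (by norm_num)
    interval_cases m
    · refine step_pos hp (by simp [alpha]) (by norm_num) ?_
      have := hp.mono (show (1 : ℤ) ≤ 3 by norm_num)
      rw [hφ]; norm_num; linarith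
    · refine step_pos hp (by simp [alpha]) (by norm_num) ?_
      rw [hφ]; norm_num; linarith
    · exact step_neg3 hp
  refine step_triv hp (by simp [phi, h4, h3]) ?_ ?_
  · have h4' : ¬ (n = 1 ∧ D = 4 ∧ ((D : ℤ) - 2 * m) ≤ -2) := fun h => h4 ⟨h.1, h.2.1⟩
    have h3' : ¬ (n = 1 ∧ D = 3 ∧ ((D : ℤ) - 2 * m) ≤ -1) := fun h => h3 ⟨h.1, h.2.1⟩
    rw [alpha, if_neg h4', if_neg h3']
  · omega

end params

end Pool.Agent.Helper345_HeatBath
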