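import Pool.Agent.Helper345_HeatBath.Gen

/-!
Inequalities for the hyperbolic tangent, and the monotonicity theorem under the conditions on the
order of the updates or on the inverse temperature.
-/

namespace Pool.Agent.Helper345_HeatBath

open Function Finset

set_option linter.unusedSectionVars false

/-- The mean of the fresh spin. -/
noncomputable def tau (β : ℝ) (s : ℤ) : ℝ := 2 * pPlus β s - 1

theorem hasDerivAt_tau (β : ℝ) (s : ℤ) :
    HasDerivAt (fun β => tau β s) (s * (1 - tau β s ^ 2)) β := by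
  have h := ((hasDerivAt_pPlus β s).const_mul 2).sub_const 1
  refine h.congr_deriv ?_
  unfold tau
  ring

theorem tau_zero (s : ℤ) : tau 0 s = 0 := by
  simp [tau, pPlus]
  norm_num

theorem nonneg_of_deriv {g g' : ℝ → ℝ} (hg : ∀ x, HasDerivAt g (g' x) x)
    (h : ∀ x, 0 < x → 0 ≤ g' x) (h0 : g 0 = 0) {β : ℝ} (hβ : 0 ≤ β) : 0 ≤ g β := by
  have hm : MonotoneOn g (Set.Ici 0) := by
    refine monotoneOn_of_deriv_nonneg (convex_Ici 0) ?_ ?_ ?_
    · exact fun x _ => (hg x).continuousAt.continuousWithinAt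
    · exact fun x _ => (hg x).differentiableAt.differentiableWithinAt
    · intro x hx
      rw [interior_Ici, Set.mem_Ioi] at hx
      rw [(hg x).deriv]
      exact h x hx
  have := hm (Set.mem_Ici.2 le_rfl) (Set.mem_Ici.2 hβ) hβ
  rwa [h0] at this

theorem tau_nonneg {β : ℝ} (hβ : 0 ≤ β) {s : ℤ} (hs : 0 ≤ s) : 0 ≤ tau β s :=
  (pPlus_kernel hβ).half_le hs

theorem tau_mono {β : ℝ} (hβ : 0 ≤ β) {a b : ℤ} (h : a ≤ b) : tau β a ≤ tau β b := by
  have := (pPlus_kernel hβ).mono h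
  unfold tau
  linarith

theorem tau_le_one {β : ℝ} (hβ : 0 ≤ β) (s : ℤ) : tau β s ≤ 1 := by
  have := (pPlus_kernel hβ).le_one s
  unfold tau
  linarith

theorem tau_neg {β : ℝ} (hβ : 0 ≤ β) (s : ℤ) : tau β (-s) = - tau β s := by
  have := (pPlus_kernel hβ).symm s
  unfold tau
  linarith

theorem tau_le_mul {β : ℝ} (hβ : 0 ≤ β) {s : ℤ} (hs : 0 ≤ s) : tau β s ≤ β * s := by
  have hs' : (0 : ℝ) ≤ s := by exact_mod_cast hs
  have h : 0 ≤ (fun β : ℝ => β * s - tau β s) β := by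
    refine nonneg_of_deriv (g' := fun β => 1 * s - s * (1 - tau β s ^ 2))
      (fun x => ((hasDerivAt_id x).mul_const (s : ℝ)).sub (hasDerivAt_tau x s)) ?_ ?_ hβ
    · intro x _
      have := mul_nonneg hs' (sq_nonneg (tau x s))
      nlinarith
    · simp [tau_zero]
  simpa using h

theorem le_tau {β : ℝ} (hβ : 0 ≤ β) {s : ℤ} (hs : 0 ≤ s) :
    β * s - β ^ 3 * s ^ 3 / 3 ≤ tau β s := by
  have hs' : (0 : ℝ) ≤ s := by exact_mod_cast hs
  have h : 0 ≤ (fun β : ℝ => tau β s - (β * s - β ^ 3 * (s ^ 3 / 3))) β := by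
    refine nonneg_of_deriv
      (g' := fun β => s * (1 - tau β s ^ 2) - (1 * s - (3 : ℕ) * β ^ (3 - 1) * (s ^ 3 / 3)))
      (fun x => (hasDerivAt_tau x s).sub (((hasDerivAt_id x).mul_const (s : ℝ)).sub
        ((hasDerivAt_pow 3 x).mul_const _))) ?_ ?_ hβ
    · intro x hx
      have h1 := tau_le_mul hx.le hs
      have h2 := tau_nonneg hx.le hs
      have h3 : tau x s ^ 2 ≤ (x * s) ^ 2 := by gcongr
      have h4 := mul_nonneg hs' (sub_nonneg.2 h3)
      push_cast
      norm_num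
      nlinarith [h4]
    · simp [tau_zero]
  have h' : 0 ≤ tau β s - (β * s - β ^ 3 * (s ^ 3 / 3)) := h
  linarith [h', show β ^ 3 * ((s : ℝ) ^ 3 / 3) = β ^ 3 * s ^ 3 / 3 by ring]

theorem tau_concave {β : ℝ} (hβ : 0 ≤ β) {a b : ℤ} (ha : 0 ≤ a) (hab : a ≤ b) :
    a * tau β b ≤ b * tau β a := by
  have ha' : (0 : ℝ) ≤ a := by exact_mod_cast ha
  have hb' : (0 : ℝ) ≤ b := by exact_mod_cast ha.trans hab
  have h : 0 ≤ (fun β : ℝ => b * tau β a - a * tau β b) β := by
    refine nonneg_of_deriv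
      (g' := fun β => b * (a * (1 - tau β a ^ 2)) - a * (b * (1 - tau β b ^ 2)))
      (fun x => ((hasDerivAt_tau x a).const_mul (b : ℝ)).sub
        ((hasDerivAt_tau x b).const_mul (a : ℝ))) ?_ ?_ hβ
    · intro x hx
      have h1 := tau_mono hx.le hab
      have h2 := tau_nonneg hx.le ha
      have h3 : tau x a ^ 2 ≤ tau x b ^ 2 := by gcongr
      have h4 := mul_nonneg (mul_nonneg ha' hb') (sub_nonneg.2 h3)
      nlinarith [h4]
    · simp [tau_zero]
  have h' : 0 ≤ b * tau β a - a * tau β b := h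
  linarith

theorem tau_eq (β : ℝ) (s : ℕ) :
    tau β s = (Real.exp (2 * β) ^ s - 1) / (Real.exp (2 * β) ^ s + 1) := by
  have h : Real.exp (2 * β) ^ s = Real.exp (β * s) / Real.exp (-(β * s)) := by
    rw [← Real.exp_nat_mul, ← Real.exp_sub]
    congr 1
    ring
  unfold tau pPlus
  rw [h]
  push_cast
  have h1 := Real.exp_pos (β * s)
  have h2 := Real.exp_pos (-(β * s))
  field_simp
  ring

theorem one_le_x {β : ℝ} (hβ : 0 ≤ β) : 1 ≤ Real.exp (2 * β) := Real.one_le_exp (by linarith)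

theorem cosh_cond {β : ℝ} (h : Real.cosh (4 * β) ≤ 2) :
    Real.exp (2 * β) ^ 4 + 1 ≤ 4 * Real.exp (2 * β) ^ 2 := by
  have h1 : Real.exp (4 * β) = Real.exp (2 * β) ^ 2 := by
    rw [← Real.exp_nat_mul]; congr 1; push_cast; ring
  have h2 : Real.exp (-(4 * β)) * Real.exp (2 * β) ^ 2 = 1 := by
    rw [← h1, ← Real.exp_add]; simp
  rw [Real.cosh_eq, h1] at h
  have h3 : 0 ≤ Real.exp (2 * β) ^ 2 := by positivity
  nlinarith [mul_le_mul_of_nonneg_right h h3]

theorem tau_six {β : ℝ} (hβ : 0 ≤ β) (h : Real.cosh (4 * β) ≤ 2) :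
    5 * tau β 2 ≤ 3 * tau β 6 := by
  have e2 := tau_eq β 2
  have e6 := tau_eq β 6
  have hx := one_le_x hβ
  have hc := cosh_cond h
  push_cast at e2 e6
  rw [e2, e6]
  generalize Real.exp (2 * β) = x at *
  rw [mul_div_assoc', mul_div_assoc', div_le_div_iff₀ (by positivity) (by positivity)]
  have hx2 : 0 ≤ x ^ 4 - 1 := by nlinarith [sq_nonneg (x ^ 2 - 1), sq_nonneg (x - 1)]
  nlinarith [mul_nonneg hx2 (sub_nonneg.2 hc)]

theorem tau_five {β : ℝ} (hβ : 0 ≤ β) (h : Real.cosh (4 * β) ≤ 2) :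
    4 * tau β 1 ≤ 2 * tau β 5 := by
  have e2 := tau_eq β 1
  have e6 := tau_eq β 5
  have hx := one_le_x hβ
  have hc := cosh_cond h
  push_cast at e2 e6
  rw [e2, e6]
  generalize Real.exp (2 * β) = x at *
  rw [mul_div_assoc', mul_div_assoc', div_le_div_iff₀ (by positivity) (by positivity)]
  have hx2 : 0 ≤ x ^ 2 - 1 := by nlinarith
  have hx3 : 0 ≤ -(x ^ 4 - 3 * x ^ 3 + x ^ 2 - 3 * x + 1) := by
    nlinarith [mul_nonneg (by linarith : (0 : ℝ) ≤ x) (sq_nonneg (x - 1))]
  nlinarith [mul_nonneg hx2 hx3]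

/-- The inequality for the weight. -/
theorem cond_ok {β : ℝ} (hβ : 0 ≤ β) {n D q m : ℕ} (hn : 0 < n) (hq : q + n ≤ D) (hm : m ≤ q)
    (h : 2 * q ≤ D + 2 ∨ (D ≤ 6 ∧ Real.cosh (4 * β) ≤ 2) ∨ β ^ 2 * (D : ℝ) ^ 3 ≤ 6) :
    ((q : ℝ) - 2 * m) * (if 2 * q ≤ D then 0 else tau β D / q) ≤ tau β (D - 2 * m) := by
  split_ifs with hqD
  · rw [mul_zero]
    exact tau_nonneg hβ (by omega)
  have hq0 : 0 < q := by omega
  have hq0' : (0 : ℝ) < q := by exact_mod_cast hq0
  have hD0' : (0 : ℝ) < D := by exact_mod_cast (by omega : 0 < D)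
  rw [← mul_div_assoc, div_le_iff₀ hq0']
  have hτD := tau_nonneg hβ (s := (D : ℤ)) (by omega)
  by_cases hmD : 2 * m ≤ D
  · have h1 := tau_concave hβ (a := (D : ℤ) - 2 * m) (b := D) (by omega) (by omega)
    push_cast at h1
    have h2 : (q : ℝ) ≤ D := by exact_mod_cast (by omega : q ≤ D)
    have h3 : 0 ≤ ((m : ℝ) * (D - q)) * tau β D :=
      mul_nonneg (mul_nonneg (by positivity) (by linarith)) hτD
    have h4 := mul_le_mul_of_nonneg_left h1 hq0'.le
    have h5 : ((q : ℝ) - 2 * m) * tau β D * D ≤ tau β (D - 2 * m) * q * D := by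
      nlinarith [h3, h4]
    exact le_of_mul_le_mul_right h5 hD0'
  · obtain ⟨s, hs⟩ : ∃ s : ℕ, 2 * m = D + s := ⟨2 * m - D, by omega⟩
    have hs0 : 0 < s := by omega
    have e1 : (D : ℤ) - 2 * m = -(s : ℤ) := by omega
    rw [e1, tau_neg hβ]
    have hs' : 2 * (m : ℝ) = D + s := by exact_mod_cast hs
    rw [hs']
    suffices hg : (q : ℝ) * tau β s ≤ ((s : ℝ) + D - q) * tau β D by nlinarith [hg]
    by_cases hA : 2 * q ≤ D + 2
    · have hmq : m = q := by omega
      have e2 : (s : ℝ) + D - q = q := by rw [hmq] at hs'; linarith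
      rw [e2]
      exact mul_le_mul_of_nonneg_left (tau_mono hβ (by omega)) hq0'.le
    rcases h with h | ⟨h, hc⟩ | h
    · exact absurd h hA
    · have h56 : (D = 5 ∧ q = 4) ∨ (D = 6 ∧ q = 5) := by omega
      rcases h56 with ⟨rfl, rfl⟩ | ⟨rfl, rfl⟩
      · have hs13 : s = 1 ∨ s = 3 := by omega
        rcases hs13 with rfl | rfl
        · have := tau_five hβ hc
          push_cast at *
          linarith
        · have := tau_mono hβ (show (3 : ℤ) ≤ 5 by norm_num)
          push_cast at *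
          linarith
      · have hs24 : s = 2 ∨ s = 4 := by omega
        rcases hs24 with rfl | rfl
        · have := tau_six hβ hc
          push_cast at *
          linarith
        · have := tau_mono hβ (show (4 : ℤ) ≤ 6 by norm_num)
          push_cast at *
          linarith
    · have h1 := tau_le_mul hβ (s := (s : ℤ)) (by omega)
      have h2 := le_tau hβ (s := (D : ℤ)) (by omega)
      push_cast at h1 h2
      have h3 : β * ((D : ℝ) - 2) ≤ tau β D := by
        have := mul_le_mul_of_nonneg_left h hβ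
        nlinarith [h2, this]
      have hqn : q < D := by omega
      have hsq : (s : ℝ) + D ≤ 2 * q := by exact_mod_cast (by omega : s + D ≤ 2 * q)
      have hs1 : (0 : ℝ) ≤ s := by positivity
      have h4 : (q : ℝ) * s ≤ ((s : ℝ) + D - q) * (D - 2) := by
        rcases Nat.lt_or_ge (q + 1) D with h' | h'
        · have h'' : (q : ℝ) + 2 ≤ D := by exact_mod_cast h'
          have hq1 : (1 : ℝ) ≤ q := by exact_mod_cast hq0
          nlinarith [mul_nonneg hs1 (by linarith : (0 : ℝ) ≤ D - q - 2),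
            mul_nonneg (by linarith : (0 : ℝ) ≤ (D : ℝ) - q) (by linarith : (0 : ℝ) ≤ (D : ℝ) - 2)]
        · have hDq : D = q + 1 := by omega
          subst hDq
          push_cast at *
          nlinarith
      have h5 : (0 : ℝ) ≤ (s : ℝ) + D - q := by
        have : (q : ℝ) ≤ D := by exact_mod_cast hqn.le
        linarith
      calc (q : ℝ) * tau β s ≤ q * (β * s) := mul_le_mul_of_nonneg_left h1 hq0'.le
        _ = β * (q * s) := by ring
        _ ≤ β * (((s : ℝ) + D - q) * (D - 2)) := mul_le_mul_of_nonneg_left h4 hβ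
        _ = ((s : ℝ) + D - q) * (β * (D - 2)) := by ring
        _ ≤ ((s : ℝ) + D - q) * tau β D := mul_le_mul_of_nonneg_left h3 h5

end Pool.Agent.Helper345_HeatBath
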