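import Pool.Agent.Helper345_HeatBath.Main

/-!
The discrete torus and the bound for its degrees.
-/

namespace Pool.Agent.Helper345_HeatBath

/-- The discrete torus, the product of the `ℤ / L j ℤ`: two distinct sites are neighbours if they
differ by `1` or `-1` in one coordinate and agree in the others. -/
def torus {d : ℕ} (L : Fin d → ℕ) : SimpleGraph ((j : Fin d) → ZMod (L j)) where
  Adj x y := x ≠ y ∧ ∃ j, (∀ i, i ≠ j → y i = x i) ∧ (y j = x j + 1 ∨ y j = x j - 1)
  symm := ⟨by
    rintro x y ⟨hne, j, h, h'⟩
    refine ⟨hne.symm, j, fun i hi => (h i hi).symm, ?_⟩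
    rcases h' with h' | h'
    · right; rw [h']; ring
    · left; rw [h']; ring⟩
  loopless := ⟨fun x h => h.1 rfl⟩

instance {d : ℕ} (L : Fin d → ℕ) : DecidableRel (torus L).Adj := fun x y =>
  inferInstanceAs (Decidable (x ≠ y ∧
    ∃ j, (∀ i, i ≠ j → y i = x i) ∧ (y j = x j + 1 ∨ y j = x j - 1)))

theorem torus_degree_le {d : ℕ} (L : Fin d → ℕ) [∀ j, NeZero (L j)]
    (x : (j : Fin d) → ZMod (L j)) : (torus L).degree x ≤ 2 * d := by
  rw [← SimpleGraph.card_neighborFinset_eq_degree]
  have hsub : (torus L).neighborFinset x ⊆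
      (Finset.univ : Finset (Fin d × Bool)).image fun q =>
        Function.update x q.1 (if q.2 then x q.1 + 1 else x q.1 - 1) := by
    intro y hy
    rw [SimpleGraph.mem_neighborFinset] at hy
    obtain ⟨_, j, h, h'⟩ := hy
    rw [Finset.mem_image]
    rcases h' with h' | h'
    · refine ⟨(j, true), Finset.mem_univ _, ?_⟩
      funext i
      by_cases hi : i = j
      · subst hi; simp [h']
      · simp [hi, h i hi]
    · refine ⟨(j, false), Finset.mem_univ _, ?_⟩
      funext i
      by_cases hi : i = j
      · subst hi; simp [h']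
      · simp [hi, h i hi]
  refine (Finset.card_le_card hsub).trans (Finset.card_image_le.trans ?_)
  simp [mul_comm]

end Pool.Agent.Helper345_HeatBath
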